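import Pool.Agent.H121.Z987.Iface

/-! Proof of `S_clos` (from the sites to all vectors, pure point version). -/

set_option autoImplicit false

open scoped BigOperators InnerProductSpace Topology ENNReal
open Filter MeasureTheory

namespace Pool.Agent.H295.Z987

open Pool.Agent.Y662.TR (LL Cf Mw dv hu approx qk_po qk_ae qk_mass open_le po_lint)
open Pool.Agent.TH369.AN (Rz)
open Pool.Agent.TH369.MU (SpM ep zk qk Fk qk_sq qk_add qk_sum qk_nonneg)
open Pool.Agent.TH369.MU.PO2 (ep_pos ep_tendsto)
open Pool.Agent.W883.LL (P P_nonneg P_cont P_integrable P_integral)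
open Pool.Agent.TH794.LL2 (Po Po_int Po_im)
open Pool.Agent.H987.Z

/-- upper bound for the Poisson integral over a neighbourhood of a compact set -/
theorem up (m : Measure ℝ) [IsFiniteMeasure m] (K : Set ℝ) (ρ η : ℝ) (hρ : 0 < ρ) (hη : 0 < η) :
    ∫⁻ E in Metric.thickening ρ K, ENNReal.ofReal (Po m E η) ≤
      ENNReal.ofReal Real.pi * m (Metric.cthickening (2 * ρ) K) +
        ENNReal.ofReal (η / ρ ^ 2) * volume (Metric.thickening ρ K) * m Set.univ := by
  rw [po_lint m η hη]
  have hC : MeasurableSet (Metric.cthickening (2 * ρ) K) := Metric.isClosed_cthickening.measurableSet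
  have hpt : ∀ x, (∫⁻ E in Metric.thickening ρ K, ENNReal.ofReal (P x η E)) ≤
      (Metric.cthickening (2 * ρ) K).indicator (fun _ => ENNReal.ofReal Real.pi) x +
        ENNReal.ofReal (η / ρ ^ 2) * volume (Metric.thickening ρ K) := by
    intro x
    by_cases hx : x ∈ Metric.cthickening (2 * ρ) K
    · rw [Set.indicator_of_mem hx]
      refine le_trans ?_ le_self_add
      refine (setLIntegral_le_lintegral _ _).trans ?_
      rw [← ofReal_integral_eq_lintegral_ofReal (P_integrable x η hη)
        (Eventually.of_forall fun E => P_nonneg x η E hη), P_integral x η hη]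
    · rw [Set.indicator_of_notMem hx, zero_add]
      rw [← setLIntegral_const]
      refine setLIntegral_mono' Metric.isOpen_thickening.measurableSet fun E hE => ?_
      apply ENNReal.ofReal_le_ofReal
      have h1 : ρ ≤ |E - x| := by
        by_contra hcon
        push Not at hcon
        apply hx
        obtain ⟨z, hz, hEz⟩ := Metric.mem_thickening_iff.1 hE
        refine Metric.mem_cthickening_of_dist_le x z (2 * ρ) K hz ?_
        have h2 := dist_triangle x E z
        rw [dist_comm x E, Real.dist_eq E x] at h2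
        linarith
      unfold P
      have h2 : ρ ^ 2 ≤ (E - x) ^ 2 := by
        rw [← sq_abs (E - x)]
        gcongr
      apply div_le_div_of_nonneg_left hη.le (by positivity)
      nlinarith [sq_nonneg η]
  refine (lintegral_mono hpt).trans ?_
  rw [lintegral_add_right _ measurable_const, lintegral_const, lintegral_indicator_const hC]

/-- the pointwise bound -/
theorem hpt_gen {ι : Type} (T : LL ι →L[ℂ] LL ι) (φ : LL ι) (s : Finset ι) (E : ℝ) (k : ℕ) :
    qk T E k φ ^ 2 ≤ (2 * ∑ x ∈ s, ‖φ x‖ ^ 2) * ∑ x ∈ s, qk T E k (dv x) ^ 2 +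
      2 * qk T E k (φ - ∑ x ∈ s, φ x • dv x) ^ 2 := by
  obtain ⟨r, hr⟩ : ∃ r, r = φ - ∑ x ∈ s, φ x • dv x := ⟨_, rfl⟩
  rw [← hr]
  have h1 : φ = (∑ x ∈ s, φ x • dv x) + r := by rw [hr]; abel
  have h2 := qk_add T E k (∑ x ∈ s, φ x • dv x) r
  rw [← h1] at h2
  have h3 := qk_sum T E k s (fun x => φ x) dv
  have h4 : qk T E k φ ≤ (∑ x ∈ s, ‖φ x‖ * qk T E k (dv x)) + qk T E k r := by linarith
  have h5 : qk T E k φ ^ 2 ≤ ((∑ x ∈ s, ‖φ x‖ * qk T E k (dv x)) + qk T E k r) ^ 2 :=
    pow_le_pow_left₀ (qk_nonneg _ _ _ _) h4 2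
  have h6 := Finset.sum_mul_sq_le_sq_mul_sq s (fun x => ‖φ x‖) (fun x => qk T E k (dv x))
  nlinarith [sq_nonneg ((∑ x ∈ s, ‖φ x‖ * qk T E k (dv x)) - qk T E k r)]

/-- a compact set which is null for all the sites is null -/
theorem comp_null {ι : Type} (T : LL ι →L[ℂ] LL ι) (hT : IsSelfAdjoint T)
    (M : ι → Measure ℝ) (hM : ∀ x, SpM T (dv x) (M x)) (φ : LL ι) (m : Measure ℝ) (hm : SpM T φ m)
    (K : Set ℝ) (hK : IsCompact K) (h0 : ∀ x, M x K = 0) : m K = 0 := by
  haveI := hm.1
  haveI : ∀ x, IsFiniteMeasure (M x) := fun x => (hM x).1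
  have key : ∀ δ : ℝ, 0 < δ → m K ≤ ENNReal.ofReal (8 * δ ^ 2) := by
    intro δ hδ
    obtain ⟨s, hs⟩ := approx φ δ hδ
    obtain ⟨r, hr⟩ : ∃ r, r = φ - ∑ x ∈ s, φ x • dv x := ⟨_, rfl⟩
    rw [← hr] at hs
    obtain ⟨N, hN⟩ : ∃ N, N = 2 * ∑ x ∈ s, ‖φ x‖ ^ 2 := ⟨_, rfl⟩
    have hN0 : 0 ≤ N := by rw [hN]; positivity
    -- fixed neighbourhood
    have hfix : ∀ ρ : ℝ, 0 < ρ → m K ≤ ENNReal.ofReal N * ∑ x ∈ s,
        ENNReal.ofReal Real.pi * M x (Metric.cthickening (2 * ρ) K) +
          ENNReal.ofReal (8 * δ ^ 2) := by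
      intro ρ hρ
      have hv : volume (Metric.thickening ρ K) ≠ ∞ :=
        (hK.isBounded.thickening (δ := ρ)).measure_lt_top.ne
      have hk : ∀ k, ∫⁻ E in Metric.thickening ρ K, ENNReal.ofReal (Po m E (ep k)) ≤
          ENNReal.ofReal N * ∑ x ∈ s,
            (ENNReal.ofReal Real.pi * M x (Metric.cthickening (2 * ρ) K) +
              ENNReal.ofReal (ep k / ρ ^ 2) * volume (Metric.thickening ρ K) * M x Set.univ) +
            ENNReal.ofReal (8 * δ ^ 2) := by
        intro k
        have hpt : ∀ E, qk T E k φ ^ 2 ≤ N * ∑ x ∈ s, qk T E k (dv x) ^ 2 +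
            2 * qk T E k r ^ 2 := by
          intro E
          rw [hN, hr]
          exact hpt_gen T φ s E k
        calc ∫⁻ E in Metric.thickening ρ K, ENNReal.ofReal (Po m E (ep k)) =
              ∫⁻ E in Metric.thickening ρ K, ENNReal.ofReal (qk T E k φ ^ 2) := by
                simp only [qk_po T hT φ m hm]
          _ ≤ ∫⁻ E in Metric.thickening ρ K, (ENNReal.ofReal N *
                ∑ x ∈ s, ENNReal.ofReal (qk T E k (dv x) ^ 2) +
                2 * ENNReal.ofReal (qk T E k r ^ 2)) := by
                refine lintegral_mono fun E => ?_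
                refine (ENNReal.ofReal_le_ofReal (hpt E)).trans (le_of_eq ?_)
                rw [ENNReal.ofReal_add (mul_nonneg hN0 (Finset.sum_nonneg fun x _ => sq_nonneg _))
                  (by positivity), ENNReal.ofReal_mul hN0, ENNReal.ofReal_mul (by norm_num),
                  ENNReal.ofReal_sum_of_nonneg (fun x _ => sq_nonneg _)]
                norm_num
          _ = ENNReal.ofReal N * ∑ x ∈ s,
                (∫⁻ E in Metric.thickening ρ K, ENNReal.ofReal (qk T E k (dv x) ^ 2)) +
                2 * ∫⁻ E in Metric.thickening ρ K, ENNReal.ofReal (qk T E k r ^ 2) := by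
                have m1 : AEMeasurable (fun E => ∑ x ∈ s, ENNReal.ofReal (qk T E k (dv x) ^ 2))
                    (volume.restrict (Metric.thickening ρ K)) :=
                  Finset.aemeasurable_fun_sum s fun x _ => qk_ae T hT (dv x) k _
                rw [lintegral_add_left' (m1.const_mul _), lintegral_const_mul'' _ m1,
                  lintegral_finsetSum' s fun x _ => qk_ae T hT (dv x) k _,
                  lintegral_const_mul'' _ (qk_ae T hT r k _)]
          _ ≤ _ := by
                gcongr with x hx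
                · refine le_trans (le_of_eq ?_) (up (M x) K ρ (ep k) hρ (ep_pos k))
                  simp only [qk_po T hT (dv x) (M x) (hM x)]
                · calc 2 * ∫⁻ E in Metric.thickening ρ K, ENNReal.ofReal (qk T E k r ^ 2) ≤
                        2 * ENNReal.ofReal (4 * ‖r‖ ^ 2) := by
                          gcongr
                          exact qk_mass T hT r k _
                    _ ≤ ENNReal.ofReal (8 * δ ^ 2) := by
                        have h7 : ‖r‖ ^ 2 ≤ δ ^ 2 := by gcongr
                        have h8 : ∀ x : ℝ, 2 * ENNReal.ofReal x = ENNReal.ofReal (2 * x) := by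
                          intro x
                          rw [ENNReal.ofReal_mul (by norm_num)]
                          norm_num
                        rw [h8]
                        apply ENNReal.ofReal_le_ofReal
                        linarith
      have hlim : Tendsto (fun k => ENNReal.ofReal N * ∑ x ∈ s,
            (ENNReal.ofReal Real.pi * M x (Metric.cthickening (2 * ρ) K) +
              ENNReal.ofReal (ep k / ρ ^ 2) * volume (Metric.thickening ρ K) * M x Set.univ) +
            ENNReal.ofReal (8 * δ ^ 2)) atTop (𝓝 (ENNReal.ofReal N * ∑ x ∈ s,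
            (ENNReal.ofReal Real.pi * M x (Metric.cthickening (2 * ρ) K) +
              ENNReal.ofReal (0 / ρ ^ 2) * volume (Metric.thickening ρ K) * M x Set.univ) +
            ENNReal.ofReal (8 * δ ^ 2))) := by
        refine Tendsto.add ?_ tendsto_const_nhds
        refine ENNReal.Tendsto.const_mul ?_ (Or.inr ENNReal.ofReal_ne_top)
        refine tendsto_finsetSum _ fun x _ => ?_
        refine tendsto_const_nhds.add ?_
        refine ENNReal.Tendsto.mul_const ?_ (Or.inr (measure_ne_top _ _))
        refine ENNReal.Tendsto.mul_const ?_ (Or.inr hv)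
        refine (ENNReal.continuous_ofReal.tendsto _).comp ?_
        exact ((tendsto_nhdsWithin_iff.1 ep_tendsto).1).div_const _
      simp only [zero_div, ENNReal.ofReal_zero, zero_mul, add_zero] at hlim
      calc m K ≤ m (Metric.thickening ρ K) := measure_mono (Metric.self_subset_thickening hρ K)
        _ ≤ liminf (fun k => ∫⁻ E in Metric.thickening ρ K, ENNReal.ofReal (Po m E (ep k))) atTop :=
            open_le m _ Metric.isOpen_thickening
        _ ≤ liminf (fun k => ENNReal.ofReal N * ∑ x ∈ s,
            (ENNReal.ofReal Real.pi * M x (Metric.cthickening (2 * ρ) K) +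
              ENNReal.ofReal (ep k / ρ ^ 2) * volume (Metric.thickening ρ K) * M x Set.univ) +
            ENNReal.ofReal (8 * δ ^ 2)) atTop := liminf_le_liminf (Eventually.of_forall hk)
        _ = _ := hlim.liminf_eq
    -- shrink the neighbourhood
    have hlim2 : Tendsto (fun n : ℕ => ENNReal.ofReal N * ∑ x ∈ s,
        ENNReal.ofReal Real.pi * M x (Metric.cthickening (2 * (1 / ((n : ℝ) + 1))) K) +
          ENNReal.ofReal (8 * δ ^ 2)) atTop (𝓝 (ENNReal.ofReal N * ∑ x ∈ s,
        ENNReal.ofReal Real.pi * M x K + ENNReal.ofReal (8 * δ ^ 2))) := by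
      refine Tendsto.add ?_ tendsto_const_nhds
      refine ENNReal.Tendsto.const_mul ?_ (Or.inr ENNReal.ofReal_ne_top)
      refine tendsto_finsetSum _ fun x _ => ?_
      refine ENNReal.Tendsto.const_mul ?_ (Or.inr ENNReal.ofReal_ne_top)
      have h1 : Tendsto (fun n : ℕ => 2 * (1 / ((n : ℝ) + 1))) atTop (𝓝 0) := by
        have := (tendsto_one_div_add_atTop_nhds_zero_nat (𝕜 := ℝ)).const_mul 2
        simpa using this
      exact (tendsto_measure_cthickening_of_isCompact hK).comp h1
    have h3 := ge_of_tendsto' hlim2 (fun n => hfix (1 / ((n : ℝ) + 1)) (by positivity))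
    simpa [h0] using h3
  have h2 : Tendsto (fun n : ℕ => ENNReal.ofReal (8 * (1 / ((n : ℝ) + 1)) ^ 2)) atTop
      (𝓝 (ENNReal.ofReal (8 * 0 ^ 2))) :=
    (ENNReal.continuous_ofReal.tendsto _).comp
      ((tendsto_one_div_add_atTop_nhds_zero_nat.pow 2).const_mul 8)
  have h3 := ge_of_tendsto' h2 (fun n => key _ (by positivity))
  simpa using h3

/-- **L4** of the interface `Pool.Agent.H121.Z987.Iface` -/
theorem clos : Pool.Agent.H121.Z987.S_clos := by
  intro ι _ T hT hy φ m hm
  choose M A hM hA hMA using hy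
  haveI := hm.1
  refine ⟨⋃ y, A y, Set.countable_iUnion hA, ?_⟩
  have hme : MeasurableSet (⋃ y, A y)ᶜ := (Set.countable_iUnion hA).measurableSet.compl
  rw [MeasurableSet.measure_eq_iSup_isCompact hme]
  simp only [ENNReal.iSup_eq_zero]
  intro K hKs hK
  refine comp_null T hT M hM φ m hm K hK fun x => ?_
  refine measure_mono_null ?_ (hMA x)
  refine hKs.trans ?_
  exact Set.compl_subset_compl.2 (Set.subset_iUnion A x)

end Pool.Agent.H295.Z987
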